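import Mathlib

set_option autoImplicit false

/-!
# The odometer lemma and generic `c`-lines
-/

namespace Pool.Agent.LCL89

open Filter Topology

section

variable {p : ℕ → ℕ}

/-- sequences of odometer points -/
abbrev OmP (p : ℕ → ℕ) : Type := (i : ℤ) → (k : ℕ) → ZMod (p k)

/-- the element which adds `n` at the coordinate `m` -/
def sh (p : ℕ → ℕ) (m : ℤ) (n : ℤ) : OmP p := Pi.single m (fun k => (n : ZMod (p k)))

lemma sh_same (m n : ℤ) (k : ℕ) : sh p m n m k = (n : ZMod (p k)) := by
  simp [sh]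

lemma sh_ne (m n i : ℤ) (h : i ≠ m) : sh p m n i = 0 := by
  simp [sh, Pi.single_eq_of_ne h]

lemma sh_add (m n n' : ℤ) : sh p m (n + n') = sh p m n + sh p m n' := by
  rw [sh, sh, sh, ← Pi.single_add]
  congr 1
  funext k
  simp

lemma sh_zero (m : ℤ) : sh p m 0 = 0 := by
  rw [sh]
  have : (fun k => ((0 : ℤ) : ZMod (p k))) = (0 : (k : ℕ) → ZMod (p k)) := by
    funext k
    simp
  rw [this]
  exact Pi.single_zero m

lemma continuousAdd_Om : ContinuousAdd (OmP p) := inferInstance

/-- translations preserve residual sets -/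
lemma residual_translate (v : OmP p) {P : OmP p → Prop} (h : ∀ᶠ om in residual (OmP p), P om) :
    ∀ᶠ om in residual (OmP p), P (om + v) := by
  have := Homeomorph.residual_map_eq (Homeomorph.addRight v : OmP p ≃ₜ OmP p)
  have h2 : ∀ᶠ om in (residual (OmP p)).map (Homeomorph.addRight v : OmP p ≃ₜ OmP p), P om := by
    rw [this]; exact h
  exact h2

lemma baire_Om (hp : ∀ k, 1 < p k) : BaireSpace (OmP p) := by
  have : ∀ k, NeZero (p k) := fun k => ⟨by have := hp k; omega⟩
  have : ∀ k, CompactSpace (ZMod (p k)) := fun k => inferInstance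
  infer_instance

/-- a nonempty open set is not meager -/
lemma not_eventually_not_mem_of_open (hp : ∀ k, 1 < p k) {U : Set (OmP p)} (hU : IsOpen U)
    (hne : U.Nonempty) : ¬ ∀ᶠ om in residual (OmP p), om ∉ U := by
  have := baire_Om hp
  intro h
  have hd : Dense {om : OmP p | om ∉ U} := dense_of_mem_residual h
  obtain ⟨x, hxU, hx⟩ := hd.inter_open_nonempty U hU hne
  exact hx hxU

/-- some odd multiple of the rotation returns -/
lemma exists_return (hodd : ∀ k, Odd (p k)) (m : ℤ) {U : Set (OmP p)} (hU : IsOpen U)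
    {u : OmP p} (hu : u ∈ U) : ∃ N : ℕ, Odd N ∧ u + sh p m N ∈ U := by
  have hlim : Tendsto (fun K : ℕ => u + sh p m ((∏ i ∈ Finset.range K, p i : ℕ) : ℤ)) atTop
      (𝓝 u) := by
    rw [tendsto_pi_nhds]
    intro i
    rw [tendsto_pi_nhds]
    intro k
    apply tendsto_const_nhds.congr'
    filter_upwards [eventually_gt_atTop k] with K hK
    rw [Pi.add_apply, Pi.add_apply]
    by_cases him : i = m
    · subst him
      rw [sh_same]
      have hd : p k ∣ ∏ i ∈ Finset.range K, p i :=
        Finset.dvd_prod_of_mem _ (Finset.mem_range.2 hK)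
      have h0 : (((∏ i ∈ Finset.range K, p i : ℕ) : ℤ) : ZMod (p k)) = 0 := by
        rw [Int.cast_natCast]
        exact (ZMod.natCast_eq_zero_iff _ _).2 hd
      rw [h0, add_zero]
    · rw [sh_ne m _ i him, Pi.zero_apply, add_zero]
  obtain ⟨K, hK⟩ := (hlim.eventually (hU.mem_nhds hu)).exists
  refine ⟨_, ?_, hK⟩
  apply Finset.prod_induction _ Odd
  · intro a b ha hb
    exact ha.mul hb
  · exact odd_one
  · intro i _
    exact hodd i

/-- **Odometer lemma.** -/
theorem odometer (hp : ∀ k, 1 < p k) (hodd : ∀ k, Odd (p k)) (m : ℤ) (E B : Set (OmP p))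
    (hE : BaireMeasurableSet E) (hB : BaireMeasurableSet B)
    (h : ∀ᶠ om in residual (OmP p), om ∈ E → (om + sh p m 1 ∈ E ∧ (om ∈ B ↔ om + sh p m 1 ∉ B))) :
    ∀ᶠ om in residual (OmP p), om ∉ E := by
  have := baire_Om hp
  -- all translates
  have hall : ∀ᶠ om in residual (OmP p), ∀ n : ℕ, om + sh p m n ∈ E →
      (om + sh p m n + sh p m 1 ∈ E ∧ (om + sh p m n ∈ B ↔ om + sh p m n + sh p m 1 ∉ B)) := by
    rw [eventually_countable_forall]
    intro n
    exact residual_translate (sh p m n) h
  have hiter : ∀ om : OmP p, (∀ n : ℕ, om + sh p m n ∈ E →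
      (om + sh p m n + sh p m 1 ∈ E ∧ (om + sh p m n ∈ B ↔ om + sh p m n + sh p m 1 ∉ B))) →
      om ∈ E → ∀ n : ℕ, om + sh p m n ∈ E ∧ ((om + sh p m n ∈ B) ↔ (om ∈ B ↔ Even n)) := by
    intro om hom hE0 n
    induction n with
    | zero =>
      simp [sh_zero, hE0]
    | succ n ih =>
      obtain ⟨h1, h2⟩ := ih
      obtain ⟨h3, h4⟩ := hom n h1
      have hs : om + sh p m ((n + 1 : ℕ) : ℤ) = om + sh p m n + sh p m 1 := by
        push_cast
        rw [sh_add, add_assoc]
      rw [hs]
      refine ⟨h3, ?_⟩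
      rw [Nat.even_add_one]
      by_cases hx : om ∈ B <;> by_cases hy : Even n <;> simp_all
  -- the two halves
  have key : ∀ F : Set (OmP p), BaireMeasurableSet F →
      (∀ om : OmP p, (∀ n : ℕ, om + sh p m n ∈ E →
      (om + sh p m n + sh p m 1 ∈ E ∧ (om + sh p m n ∈ B ↔ om + sh p m n + sh p m 1 ∉ B))) →
      om ∈ F → ∀ n : ℕ, Odd n → om + sh p m n ∉ F) → ∀ᶠ om in residual (OmP p), om ∉ F := by
    intro F hF hFF
    obtain ⟨U, hU, hUF⟩ := hF.residualEq_isOpen
    have hUF' : ∀ᶠ om in residual (OmP p), om ∈ F ↔ om ∈ U := by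
      filter_upwards [hUF] with om hom
      exact iff_of_eq hom
    rcases U.eq_empty_or_nonempty with hUe | ⟨u, hu⟩
    · filter_upwards [hUF'] with om hom
      rw [hom, hUe]
      simp
    · exfalso
      obtain ⟨N, hN, hN2⟩ := exists_return hodd m hU hu
      have hO : IsOpen (U ∩ (fun om => om + sh p m N) ⁻¹' U) :=
        hU.inter (hU.preimage (by fun_prop))
      refine not_eventually_not_mem_of_open hp hO ⟨u, hu, hN2⟩ ?_
      filter_upwards [hall, hUF', residual_translate (sh p m N) hUF'] with om h1 h2 h3 h4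
      exact hFF om h1 (h2.2 h4.1) N hN (h3.2 h4.2)
  have hA := key (E ∩ B) (hE.inter hB) (by
    intro om hom hF n hn hn2
    have := (hiter om hom hF.1 n).2
    have h5 := this.1 hn2.2
    have h6 := h5.1 hF.2
    exact (Nat.not_even_iff_odd.2 hn) h6)
  have hC := key (E \ B) (hE.diff hB) (by
    intro om hom hF n hn hn2
    have := (hiter om hom hF.1 n).2
    have h5 : ¬ (om ∈ B ↔ Even n) := fun h => hn2.2 (this.2 h)
    apply h5
    constructor
    · intro h; exact absurd h hF.2
    · intro h; exact absurd h (Nat.not_even_iff_odd.2 hn))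
  filter_upwards [hA, hC] with om h1 h2 h3
  by_cases hB : om ∈ B
  · exact h1 ⟨h3, hB⟩
  · exact h2 ⟨h3, hB⟩

/-- for generic `om` all points of all `c`-lines have a zero coordinate -/
theorem generic_zero (m n : ℤ) :
    ∀ᶠ om in residual (OmP p), ∃ k : ℕ, om m k + (n : ZMod (p k)) = 0 := by
  apply residual_of_dense_open
  · have : {om : OmP p | ∃ k : ℕ, om m k + (n : ZMod (p k)) = 0} =
        ⋃ k : ℕ, {om : OmP p | om m k + (n : ZMod (p k)) = 0} := by
      ext om; simp
    change IsOpen {om : OmP p | ∃ k : ℕ, om m k + (n : ZMod (p k)) = 0}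
    rw [this]
    apply isOpen_iUnion
    intro k
    have hc : Continuous (fun om : OmP p => om m k) := by fun_prop
    exact (isOpen_discrete {x : ZMod (p k) | x + (n : ZMod (p k)) = 0}).preimage hc
  · intro u
    change u ∈ closure {om : OmP p | ∃ k : ℕ, om m k + (n : ZMod (p k)) = 0}
    have hlim : Tendsto (fun K : ℕ => (Function.update u m
        (Function.update (u m) K (-(n : ZMod (p K)))) : OmP p)) atTop (𝓝 u) := by
      rw [tendsto_pi_nhds]
      intro i
      rw [tendsto_pi_nhds]
      intro k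
      apply tendsto_const_nhds.congr'
      filter_upwards [eventually_gt_atTop k] with K hK
      by_cases him : i = m
      · subst him
        rw [Function.update_self, Function.update_of_ne (by omega)]
      · rw [Function.update_of_ne him]
    refine mem_closure_of_tendsto hlim (Eventually.of_forall fun K => ⟨K, ?_⟩)
    simp

/-- every `c`-line meets every first zero -/
theorem line_hits (hp : ∀ k, 1 < p k) (hcop : Pairwise (Function.onFun Nat.Coprime p))
    (om : OmP p) (m : ℤ) (j : ℕ) :
    ∃ n : ℤ, (∀ i < j, om m i + (n : ZMod (p i)) ≠ 0) ∧ om m j + (n : ZMod (p j)) = 0 := by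
  classical
  let a : Fin (j + 1) → ℕ := fun i => p i
  have hcop' : Pairwise (Function.onFun Nat.Coprime a) := by
    intro i i' hii
    exact hcop (fun h => hii (Fin.ext h))
  let e := ZMod.prodEquivPi a hcop'
  let v : (i : Fin (j + 1)) → ZMod (a i) := fun i =>
    if (i : ℕ) = j then - om m i else 1 - om m i
  have hne : (∏ i, a i) ≠ 0 := by
    rw [Finset.prod_ne_zero_iff]
    intro i _
    have := hp i
    change p i ≠ 0
    omega
  have : NeZero (∏ i, a i) := ⟨hne⟩
  let N : ℕ := (e.symm v).val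
  have hN : ∀ i : Fin (j + 1), ((N : ℤ) : ZMod (a i)) = v i := by
    intro i
    have h1 : e ((N : ℕ) : ZMod (∏ i, a i)) = v := by
      rw [ZMod.natCast_zmod_val, RingEquiv.apply_symm_apply]
    rw [map_natCast] at h1
    have h2 := congrFun h1 i
    rw [Int.cast_natCast]
    exact h2
  refine ⟨N, ?_, ?_⟩
  · intro i hi h0
    have h1 : ((N : ℤ) : ZMod (p i)) = 1 - om m i := by
      have := hN ⟨i, by omega⟩
      simp only [v, a] at this
      rw [this, if_neg (by omega)]
    rw [h1] at h0
    have h2 : (1 : ZMod (p i)) = 0 := by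
      rw [← h0]; ring
    have : Fact (1 < p i) := ⟨hp i⟩
    exact one_ne_zero h2
  · have h1 : ((N : ℤ) : ZMod (p j)) = - om m j := by
      have := hN ⟨j, by omega⟩
      simp only [v, a] at this
      rw [this, if_pos trivial]
    rw [h1]
    ring

end

end Pool.Agent.LCL89
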