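import Pool.Agent.LCL89.Grp.Defs
import Pool.Agent.LCL89.Forced.Odo

set_option autoImplicit false

/-!
# The rules on the space `Y`, and the analysis of a block
-/

namespace Pool.Agent.LCL89

open Filter Topology

section

variable {V : Set (List Bool)}

lemma smul_x (ξ : ℤ) (κ : KP V) (δ : ℤ) (ω : Om) (z : ZZ) :
    (eG V).x • (((ξ, κ, δ, ω), z) : YY V) = ((ξ + 1, κ, δ, ω), z) := rfl

lemma smul_xi (ξ : ℤ) (κ : KP V) (δ : ℤ) (ω : Om) (z : ZZ) :
    (eG V).x⁻¹ • (((ξ, κ, δ, ω), z) : YY V) = ((ξ - 1, κ, δ, ω), z) := rfl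

lemma smul_ti (ξ : ℤ) (κ : KP V) (δ : ℤ) (ω : Om) (z : ZZ) :
    (eG V).t⁻¹ • (((ξ, κ, δ, ω), z) : YY V) = ((ξ, κ, δ + 1, ω), z) := rfl

lemma smul_c (ξ : ℤ) (κ : KP V) (δ : ℤ) (ω : Om) (z : ZZ) :
    (eG V).c • (((ξ, κ, δ, ω), z) : YY V) = ((ξ, κ, δ, addAt δ 1 ω), z) := rfl

lemma smul_ci (ξ : ℤ) (κ : KP V) (δ : ℤ) (ω : Om) (z : ZZ) :
    (eG V).c⁻¹ • (((ξ, κ, δ, ω), z) : YY V) = ((ξ, κ, δ, addAt δ (-1) ω), z) := rfl

lemma smul_r (ξ : ℤ) (κ : KP V) (δ : ℤ) (ω : Om) (z : ZZ) :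
    (eG V).r • (((ξ, κ, δ, ω), z) : YY V) = ((ξ, KP.r V * κ, δ, ω), z) := rfl

lemma smul_v (ξ : ℤ) (κ : KP V) (δ : ℤ) (ω : Om) (z : ZZ) :
    (eG V).v • (((ξ, κ, δ, ω), z) : YY V) = ((ξ, KP.v V * κ, δ, ω), z) := rfl

lemma smul_s (b : Bool) (ξ : ℤ) (κ : KP V) (δ : ℤ) (ω : Om) (z : ZZ) :
    (eG V).s b • (((ξ, κ, δ, ω), z) : YY V) = ((ξ, KP.s V b * κ, δ, ω), z) := rfl

lemma smul_si (b : Bool) (ξ : ℤ) (κ : KP V) (δ : ℤ) (ω : Om) (z : ZZ) :
    ((eG V).s b)⁻¹ • (((ξ, κ, δ, ω), z) : YY V) = ((ξ, (KP.s V b)⁻¹ * κ, δ, ω), z) := rfl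

/-- the input, for a fixed `z` -/
structure InputOK (I : ℤ → ℤ → Om → ZMod 3) : Prop where
  bot : ∀ ξ δ ω, ξ ≤ 0 → I ξ δ ω = 2
  inv : ∀ ξ δ n ω, I ξ δ (addAt δ n ω) = I ξ δ ω

/-- local error, for a fixed input -/
def ErrI (I : ℤ → ℤ → Om → ZMod 3) (ξ δ : ℤ) (ω : Om) : Prop :=
  I ξ (δ + 1) ω ≠ I ξ δ ω ∨ (I (ξ + 1) δ ω = 2 ∧ I (ξ + 1) (δ + 1) ω = 2)

/-- the rules for a fixed `z` -/
structure RulesI (V : Set (List Bool)) (I : ℤ → ℤ → Om → ZMod 3)
    (F : ℤ → KP V → ℤ → Om → Lab) : Prop where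
  io : ∀ ξ κ δ ω, (F ξ κ δ ω).ι = I ξ δ ω
  l2 : ∀ ξ κ δ ω, (F ξ κ δ ω).U = true ↔
    (ErrI I ξ δ ω ∨ (I (ξ + 1) δ ω ≠ 2 ∧ (F (ξ + 1) κ δ ω).U = true))
  l3 : ∀ ξ κ δ ω, (F ξ κ δ ω).N = true ↔
    (ErrI I ξ δ ω ∨ (I ξ δ ω ≠ 2 ∧ (F (ξ - 1) κ δ ω).N = true))
  l4 : ∀ ξ κ δ ω b, (F ξ κ δ ω).ok → I (ξ + 1) δ ω = bitSym b →
    (F (ξ + 1) ((KP.s V b)⁻¹ * κ) δ ω).ok →
    (F (ξ + 1) ((KP.s V b)⁻¹ * κ) δ ω).lam = (F ξ κ δ ω).lam
  l5 : ∀ ξ κ δ ω, I ξ δ ω = 2 → (F ξ κ δ ω).ok → (F ξ (KP.r V * κ) δ ω).ok →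
    (F ξ (KP.r V * κ) δ ω).lam = (F ξ κ δ ω).lam.map (fun i => 1 - i)
  l6 : ∀ ξ κ δ ω, (F ξ κ δ ω).ok → I (ξ + 1) δ ω = 2 → (F ξ (KP.v V * κ) δ ω).ok →
    (F ξ (KP.v V * κ) δ ω).lam = (F ξ κ δ ω).lam.map (fun i => -i)
  l7 : ∀ ξ κ δ ω, ¬ (F ξ κ δ ω).live → (F ξ κ δ ω).R = true
  l8 : ∀ ξ κ δ ω, (F ξ κ δ ω).live → (F ξ κ δ ω).R = true → (F ξ κ (δ + 1) ω).R = false
  l9 : ∀ ξ κ δ ω, (F ξ κ δ ω).live → (F ξ κ δ (addAt δ 1 ω)).live →
    (F ξ κ δ ω).R = (F ξ κ δ (addAt δ 1 ω)).R ∧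
    ((F ξ κ δ ω).R = false → (F ξ κ (δ + 1) ω).R = false →
      (F ξ κ (δ + 1) (addAt δ 1 ω)).R = false →
      (F ξ κ δ ω).p ≠ (F ξ κ δ (addAt δ 1 ω)).p)

/-- from the rules of the LCL to the rules for a fixed `z` -/
theorem rulesI_of_rulesG (I : ℤ → ℤ → Om → ZMod 3) (hI : InputOK I) (g : YY V → Lab) (z : ZZ)
    (hio : ∀ ξ κ δ ω, (g ((ξ, κ, δ, ω), z)).ι = I ξ δ ω)
    (hg : ∀ y, RulesG (eG V) (pat g y)) :
    RulesI V I (fun ξ κ δ ω => g ((ξ, κ, δ, ω), z)) := by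
  have herr : ∀ ξ κ δ ω, Err (eG V) (pat g ((ξ, κ, δ, ω), z)) ↔ ErrI I ξ δ ω := by
    intro ξ κ δ ω
    have h1 : ¬ ∃ h ∈ (eG V).S1,
        (pat g ((ξ, κ, δ, ω), z) h).ι ≠ (pat g ((ξ, κ, δ, ω), z) (1 : GP V)).ι ∨
        (pat g ((ξ, κ, δ, ω), z) ((eG V).x * h)).ι ≠ (pat g ((ξ, κ, δ, ω), z) (eG V).x).ι := by
      rintro ⟨h, hh, hne⟩
      have hk : ∃ κ' n, h • (((ξ, κ, δ, ω), z) : YY V) = ((ξ, κ', δ, addAt δ n ω), z) := by
        have h0 : ω = addAt δ 0 ω := by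
          funext i k
          by_cases h : i = δ <;> simp [addAt, h]
        simp only [Elts.S1, List.mem_cons, List.not_mem_nil, or_false] at hh
        rcases hh with rfl | rfl | rfl | rfl | rfl | rfl | rfl | rfl
        · exact ⟨κ, 1, rfl⟩
        · exact ⟨κ, -1, rfl⟩
        · exact ⟨KP.r V * κ, 0, by rw [← h0]; rfl⟩
        · exact ⟨KP.v V * κ, 0, by rw [← h0]; rfl⟩
        · exact ⟨KP.s V false * κ, 0, by rw [← h0]; rfl⟩
        · exact ⟨(KP.s V false)⁻¹ * κ, 0, by rw [← h0]; rfl⟩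
        · exact ⟨KP.s V true * κ, 0, by rw [← h0]; rfl⟩
        · exact ⟨(KP.s V true)⁻¹ * κ, 0, by rw [← h0]; rfl⟩
      obtain ⟨κ', n, hk⟩ := hk
      simp only [pat, mul_smul, hk, one_smul, smul_x, hio, hI.inv, ne_eq, not_true_eq_false,
        or_false] at hne
    unfold Err ErrI
    constructor
    · rintro (h | h | h)
      · exact absurd h h1
      · left
        simpa only [pat, smul_ti, one_smul, hio] using h
      · right
        simpa only [pat, smul_ti, one_smul, smul_x, mul_smul, hio] using h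
    · rintro (h | h)
      · right; left
        simpa only [pat, smul_ti, one_smul, hio] using h
      · right; right
        simpa only [pat, smul_ti, one_smul, smul_x, mul_smul, hio] using h
  constructor
  · exact hio
  · intro ξ κ δ ω
    have := (hg ((ξ, κ, δ, ω), z)).l2
    rw [L2, herr] at this
    simpa only [pat, smul_ti, one_smul, smul_x, mul_smul, hio] using this
  · intro ξ κ δ ω
    have := (hg ((ξ, κ, δ, ω), z)).l3
    rw [L3, herr] at this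
    simpa only [pat, smul_ti, one_smul, smul_x, smul_xi, mul_smul, hio] using this
  · intro ξ κ δ ω b
    have := (hg ((ξ, κ, δ, ω), z)).l4 b
    simpa only [pat, smul_ti, one_smul, smul_x, smul_si, mul_smul, hio] using this
  · intro ξ κ δ ω
    have := (hg ((ξ, κ, δ, ω), z)).l5
    rw [L5] at this
    simpa only [pat, smul_ti, one_smul, smul_x, smul_r, mul_smul, hio] using this
  · intro ξ κ δ ω
    have := (hg ((ξ, κ, δ, ω), z)).l6
    rw [L6] at this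
    simpa only [pat, smul_ti, one_smul, smul_x, smul_v, mul_smul, hio] using this
  · intro ξ κ δ ω
    have := (hg ((ξ, κ, δ, ω), z)).l7
    rw [L7] at this
    simpa only [pat, smul_ti, one_smul, smul_x, smul_v, mul_smul] using this
  · intro ξ κ δ ω
    have := (hg ((ξ, κ, δ, ω), z)).l8
    rw [L8] at this
    simpa only [pat, smul_ti, one_smul, smul_x, smul_v, mul_smul] using this
  · intro ξ κ δ ω
    have := (hg ((ξ, κ, δ, ω), z)).l9
    rw [L9] at this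
    simpa only [pat, smul_ti, one_smul, smul_x, smul_c, mul_smul] using this

/-! ### blocks -/

lemma bitSym_ne (b : Bool) : bitSym b ≠ 2 := by
  cases b <;> simp only [bitSym] <;> decide

/-- the block at depth `δ` has code `σ` -/
def HasCode (I : ℤ → ℤ → Om → ZMod 3) (δ : ℤ) (ω : Om) (σ : List Bool) : Prop :=
  (∀ (i : ℕ) (h : i < σ.length), I (i + 1) δ ω = bitSym σ[i]) ∧ I (σ.length + 1) δ ω = 2

/-- the string at depth `δ` starts with `σ` and a further bit -/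
def Extends (I : ℤ → ℤ → Om → ZMod 3) (δ : ℤ) (ω : Om) (σ : List Bool) : Prop :=
  (∀ (i : ℕ) (h : i < σ.length), I (i + 1) δ ω = bitSym σ[i]) ∧ I (σ.length + 1) δ ω ≠ 2

variable {I : ℤ → ℤ → Om → ZMod 3} {F : ℤ → KP V → ℤ → Om → Lab}

lemma ok_block (hI : InputOK I) (hF : RulesI V I F) {δ : ℤ} {ω : Om} {σ : List Bool}
    (h1 : HasCode I δ ω σ) (h2 : Extends I (δ + 1) ω σ) (κ : KP V) (i : ℕ)
    (hi : i ≤ σ.length) : (F i κ δ ω).ok := by
  -- the input symbols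
  have hsym : ∀ j : ℕ, j < σ.length → I ((j : ℤ) + 1) δ ω ≠ 2 := by
    intro j hj
    rw [h1.1 j hj]
    exact bitSym_ne _
  -- no errors
  have herr : ∀ j : ℕ, j ≤ σ.length → ¬ ErrI I j δ ω := by
    intro j hj herr
    rcases herr with h | ⟨h3, h4⟩
    · apply h
      rcases j with _ | j
      · rw [hI.bot _ _ _ (by simp), hI.bot _ _ _ (by simp)]
      · push_cast
        rw [h1.1 j (by omega), h2.1 j (by omega)]
    · rcases Nat.lt_or_ge j σ.length with hj2 | hj2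
      · exact hsym j hj2 h3
      · have : j = σ.length := le_antisymm hj hj2
        subst this
        exact h2.2 h4
  -- U
  have hU : ∀ k : ℕ, k ≤ σ.length → (F ((σ.length - k : ℕ) : ℤ) κ δ ω).U = false := by
    intro k
    induction k with
    | zero =>
      intro _
      rw [← Bool.not_eq_true, hF.l2]
      rintro (h | h)
      · exact herr _ (by omega) h
      · exact h.1 (by rw [Nat.sub_zero]; exact h1.2)
    | succ k ih =>
      intro hk
      rw [← Bool.not_eq_true, hF.l2]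
      rintro (h | h)
      · exact herr _ (by omega) h
      · have := ih (by omega)
        rw [show ((σ.length - (k + 1) : ℕ) : ℤ) + 1 = ((σ.length - k : ℕ) : ℤ) by omega, this] at h
        exact Bool.noConfusion h.2
  -- N
  have hN : ∀ k : ℕ, k ≤ σ.length → (F (k : ℤ) κ δ ω).N = false := by
    intro k
    induction k with
    | zero =>
      intro _
      rw [← Bool.not_eq_true, hF.l3]
      rintro (h | h)
      · exact herr 0 (by omega) (by exact_mod_cast h)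
      · exact h.1 (hI.bot _ _ _ (by simp))
    | succ k ih =>
      intro hk
      rw [← Bool.not_eq_true, hF.l3]
      rintro (h | h)
      · exact herr _ hk h
      · have := ih (by omega)
        rw [show ((k + 1 : ℕ) : ℤ) - 1 = (k : ℤ) by omega, this] at h
        exact Bool.noConfusion h.2
  refine ⟨?_, hN i hi⟩
  have := hU (σ.length - i) (by omega)
  rwa [show σ.length - (σ.length - i) = i by omega] at this

/-- equal codes at the depths `δ` and `δ + 1` make the block bad -/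
lemma bad_block (hF : RulesI V I F) {δ : ℤ} {ω : Om} {σ : List Bool}
    (h1 : HasCode I δ ω σ) (h2 : I (σ.length + 1) (δ + 1) ω = 2) (κ : KP V) :
    (F 0 κ δ ω).R = true := by
  have hsym : ∀ j : ℕ, j < σ.length → I ((j : ℤ) + 1) δ ω ≠ 2 := by
    intro j hj
    rw [h1.1 j hj]
    exact bitSym_ne _
  have hU : ∀ k : ℕ, k ≤ σ.length → (F ((σ.length - k : ℕ) : ℤ) κ δ ω).U = true := by
    intro k
    induction k with
    | zero =>
      intro _
      rw [hF.l2]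
      left; right
      rw [Nat.sub_zero]
      exact ⟨h1.2, h2⟩
    | succ k ih =>
      intro hk
      rw [hF.l2]
      right
      have := ih (by omega)
      refine ⟨hsym _ (by omega), ?_⟩
      rw [show ((σ.length - (k + 1) : ℕ) : ℤ) + 1 = ((σ.length - k : ℕ) : ℤ) by omega]
      exact this
  apply hF.l7
  intro hl
  have h3 := hU σ.length le_rfl
  rw [Nat.sub_self, Nat.cast_zero, hl.2.1.1] at h3
  exact Bool.noConfusion h3

/-- climbing to the top of a block -/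
lemma lam_climb (hF : RulesI V I F) {δ : ℤ} {ω : Om} (σ : List Bool) (κ : KP V) (i : ℕ)
    (h1 : ∀ (j : ℕ) (h : j < σ.length), I ((i + j : ℕ) + 1) δ ω = bitSym σ[j])
    (hok : ∀ (κ' : KP V) (j : ℕ), j ≤ σ.length → (F ((i + j : ℕ) : ℤ) κ' δ ω).ok) :
    (F ((i + σ.length : ℕ) : ℤ) ((wrd (KP.s V) σ)⁻¹ * κ) δ ω).lam = (F i κ δ ω).lam := by
  induction σ generalizing κ i with
  | nil => simp [wrd]
  | cons b σ ih =>
    have h2 := ih ((KP.s V b)⁻¹ * κ) (i + 1) (by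
      intro j hj
      have := h1 (j + 1) (by simpa using hj)
      rw [show i + 1 + j = i + (j + 1) by ring, this]
      simp) (by
      intro κ' j hj
      have := hok κ' (j + 1) (by simpa using hj)
      rw [show i + 1 + j = i + (j + 1) by ring]
      exact this)
    have h3 := hF.l4 i κ δ ω b (hok κ 0 (by simp)) (by
      have := h1 0 (by simp)
      simpa using this) (by
      have := hok ((KP.s V b)⁻¹ * κ) 1 (by simp)
      push_cast at this
      exact this)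
    rw [← h3]
    push_cast at h2 ⊢
    rw [← h2]
    have h4 : (wrd (KP.s V) (b :: σ))⁻¹ * κ = (wrd (KP.s V) σ)⁻¹ * ((KP.s V b)⁻¹ * κ) := by
      simp [wrd, mul_assoc]
    rw [h4, List.length_cons]
    push_cast
    rw [show (i : ℤ) + (σ.length + 1) = i + 1 + σ.length by ring]

/-- on a good block with a valid code the base points are live -/
lemma live_block (hI : InputOK I) (hF : RulesI V I F) (hK1 : StmtK1) {δ : ℤ} {ω : Om}
    {σ : List Bool} (h1 : HasCode I δ ω σ) (h2 : Extends I (δ + 1) ω σ) (hσ : σ ∈ V) (κ : KP V) :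
    (F 0 κ δ ω).live := by
  have hok : ∀ (κ' : KP V) (i : ℕ), i ≤ σ.length → (F i κ' δ ω).ok := fun κ' i hi =>
    ok_block hI hF h1 h2 κ' i hi
  have hok0 : ∀ κ' : KP V, (F 0 κ' δ ω).ok := fun κ' => by
    have := hok κ' 0 (by omega)
    simpa using this
  have hI0 : I 0 δ ω = 2 := hI.bot _ _ _ le_rfl
  refine ⟨by rw [hF.io]; exact hI0, hok0 κ, ?_⟩
  -- climbing
  have hcl : ∀ κ' : KP V, (F (σ.length : ℤ) ((wrd (KP.s V) σ)⁻¹ * κ') δ ω).lam =
      (F 0 κ' δ ω).lam := by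
    intro κ'
    have := lam_climb hF σ κ' 0 (by
      intro j hj
      rw [zero_add]
      exact h1.1 j hj) (by
      intro κ'' j hj
      rw [zero_add]
      exact hok κ'' j hj)
    simpa using this
  -- the action of v_σ
  have hv : ∀ κ' : KP V, (F 0 (wrd (KP.s V) σ * KP.v V * (wrd (KP.s V) σ)⁻¹ * κ') δ ω).lam =
      (F 0 κ' δ ω).lam.map (fun i => -i) := by
    intro κ'
    have h3 := hF.l6 σ.length ((wrd (KP.s V) σ)⁻¹ * κ') δ ω (hok _ _ le_rfl) h1.2 (hok _ _ le_rfl)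
    rw [hcl] at h3
    rw [← h3, ← hcl]
    have h4 : (wrd (KP.s V) σ)⁻¹ * (wrd (KP.s V) σ * KP.v V * (wrd (KP.s V) σ)⁻¹ * κ') =
        KP.v V * ((wrd (KP.s V) σ)⁻¹ * κ') := by group
    rw [h4]
  have hr : ∀ κ' : KP V, (F 0 (KP.r V * κ') δ ω).lam =
      (F 0 κ' δ ω).lam.map (fun i => 1 - i) := by
    intro κ'
    exact hF.l5 0 κ' δ ω hI0 (hok0 _) (hok0 _)
  have hcomm := hK1 V σ hσ
  have h5 : (F 0 (KP.r V * (wrd (KP.s V) σ * KP.v V * (wrd (KP.s V) σ)⁻¹ * κ)) δ ω).lam =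
      (F 0 (wrd (KP.s V) σ * KP.v V * (wrd (KP.s V) σ)⁻¹ * (KP.r V * κ)) δ ω).lam := by
    rw [← mul_assoc, hcomm.eq, mul_assoc]
  rw [hr, hv, hv, hr] at h5
  cases hlam : (F 0 κ δ ω).lam with
  | none => rfl
  | some l =>
    rw [hlam] at h5
    simp only [Option.map_some, Option.some.injEq] at h5
    exfalso
    clear hlam
    revert h5
    revert l
    decide

end

end Pool.Agent.LCL89
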