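import Pool.Agent.LCL89.Forced.Str

set_option autoImplicit false

/-!
# Forced evaluation
-/

namespace Pool.Agent.LCL89

open Filter Topology

/-- the situation after some choices: `T'`, `z'` = current subtree and assignment, `m` = depth,
`ρ` = prefix, `D` = the set of sequences with the right choices -/
structure Ctx (T : Tr) (z : ZZ) (T' : Tr) (z' : ZZ) (m : ℕ) (ρ : List Bool) (D : Set Om) :
    Prop where
  meas : BaireMeasurableSet D
  inv : ∀ i : ℕ, m ≤ i → ∀ (n : ℤ) (ω : Om), ω ∈ D → addAt i n ω ∈ D
  str : ∀ ω ∈ D, ∀ d n : ℕ, inp T z (n + 1) ((m + d : ℕ) : ℤ) ω =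
    app ρ (str T' d z' (fun i j => bits ω (m + i) j)) n
  val : ∀ τ, ρ ++ τ ∈ Val T ↔ τ ∈ Val T'

/-- the set of `ω` with choice `j` at `m` -/
def Choice (m : ℕ) (j : ℕ) : Set Om := {ω | (∀ i < j, ω (m : ℤ) i ≠ 0) ∧ ω (m : ℤ) j = 0}

lemma choice_meas (m j : ℕ) : BaireMeasurableSet (Choice m j) := by
  have h1 : IsOpen (Choice m j) := by
    have : Choice m j = (⋂ i ∈ Finset.range j, {ω : Om | ω (m : ℤ) i ≠ 0}) ∩
        {ω : Om | ω (m : ℤ) j = 0} := by
      ext ω
      simp [Choice]
    rw [this]
    refine IsOpen.inter (isOpen_biInter_finset fun i _ => ?_) ?_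
    · have hc : Continuous (fun ω : Om => ω (m : ℤ) i) := by fun_prop
      exact (isOpen_discrete {x : ZMod (pp i) | x ≠ 0}).preimage hc
    · have hc : Continuous (fun ω : Om => ω (m : ℤ) j) := by fun_prop
      exact (isOpen_discrete {x : ZMod (pp j) | x = 0}).preimage hc
  exact h1.baireMeasurableSet

lemma prefix_unique : ∀ (j i : ℕ) (ρ τ : List Bool),
    List.replicate j false ++ true :: ρ = List.replicate i false ++ true :: τ → j = i ∧ ρ = τ
  | 0, 0, ρ, τ, h => by simpa using h
  | 0, i + 1, ρ, τ, h => by simp [List.replicate_succ] at h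
  | j + 1, 0, ρ, τ, h => by simp [List.replicate_succ] at h
  | j + 1, i + 1, ρ, τ, h => by
    have := prefix_unique j i ρ τ (by simpa [List.replicate_succ] using h)
    exact ⟨by rw [this.1], this.2⟩

lemma val_child (f : ℕ → Tr) (j : ℕ) (τ : List Bool) :
    List.replicate j false ++ true :: τ ∈ Val (Tr.node f) ↔ τ ∈ Val (f j) := by
  rw [Val, Set.mem_ofPred_eq]
  constructor
  · rintro (h | ⟨i, ρ, hρ, h⟩)
    · simp at h
    · obtain ⟨rfl, rfl⟩ := prefix_unique _ _ _ _ h
      exact hρ
  · intro h
    exact Or.inr ⟨j, τ, h, rfl⟩

lemma ctx_child {T : Tr} {z : ZZ} {f : ℕ → Tr} {z' : ZZ} {m : ℕ} {ρ : List Bool} {D : Set Om}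
    (h : Ctx T z (Tr.node f) z' m ρ D) (j : ℕ) :
    Ctx T z (f j) (subz z' j) (m + 1) (ρ ++ (List.replicate j false ++ [true]))
      (D ∩ Choice m j) := by
  constructor
  · exact h.meas.inter (choice_meas m j)
  · intro i hi n ω hω
    refine ⟨h.inv i (by omega) n ω hω.1, ?_⟩
    have hne : (m : ℤ) ≠ (i : ℤ) := by omega
    refine ⟨fun k hk => ?_, ?_⟩
    · rw [addAt, if_neg hne]
      exact hω.2.1 k hk
    · rw [addAt, if_neg hne]
      exact hω.2.2
  · intro ω hω d n
    have h1 := h.str ω hω.1 (d + 1) n
    rw [show m + 1 + d = m + (d + 1) by ring, h1, app_append]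
    have h2 : ∀ k, str (Tr.node f) (d + 1) z' (fun i j => bits ω (m + i) j) k =
        app (List.replicate j false ++ [true]) (str (f j) d (subz z' j)
          (fun i => (fun i j => bits ω (m + i) j) (i + 1))) k := by
      intro k
      apply str_node
      · intro i hi
        rw [bits, add_zero]
        simpa using hω.2.1 i hi
      · rw [bits, add_zero]
        simpa using hω.2.2
    rw [show str (Tr.node f) (d + 1) z' (fun i j => bits ω (m + i) j) = _ from funext h2]
    congr 4
    funext i k
    change bits ω (m + (i + 1)) k = bits ω (m + 1 + i) k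
    rw [show m + (i + 1) = m + 1 + i by ring]
  · intro τ
    rw [← val_child f j τ, ← h.val]
    simp

lemma ctx_root (T : Tr) (z : ZZ) : Ctx T z T z 0 [] Set.univ := by
  constructor
  · exact isOpen_univ.baireMeasurableSet
  · intros; trivial
  · intro ω _ d n
    rw [zero_add, inp_nat, app_nil]
    congr 1
    funext i j
    rw [zero_add]
  · intro τ
    rw [List.nil_append]

/-- the main induction -/
theorem forced_aux (hK1 : StmtK1) (T : Tr) (z : ZZ) (F : ℤ → KP (Val T) → ℤ → Om → Lab)
    (hF : RulesI (Val T) (inp T z) F) (κ : KP (Val T))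
    (hR : ∀ δ : ℤ, BaireMeasurableSet {ω | (F 0 κ δ ω).R = true})
    (hp : ∀ δ : ℤ, BaireMeasurableSet {ω | (F 0 κ δ ω).p = true}) (T' : Tr) :
    ∀ (z' : ZZ) (m : ℕ) (ρ : List Bool) (D : Set Om), Ctx T z T' z' m ρ D →
      ∀ᶠ ω in residual Om, ω ∈ D → ((F 0 κ (m : ℤ) ω).R = true ↔ Ev T' z') := by
  have hI := inputOK_inp T z
  induction T' with
  | leaf =>
    intro z' m ρ D hctx
    apply Eventually.of_forall
    intro ω hω
    -- the symbols
    have hs := hctx.str ω hω
    have hpre : ∀ (d : ℕ) (i : ℕ) (h : i < ρ.length),
        inp T z (i + 1) ((m + d : ℕ) : ℤ) ω = bitSym ρ[i] := by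
      intro d i h
      rw [hs d i, app_lt _ _ _ h]
    have hpost : ∀ (d k : ℕ), inp T z ((ρ.length + k : ℕ) + 1) ((m + d : ℕ) : ℤ) ω =
        str Tr.leaf d z' (fun i j => bits ω (m + i) j) k := by
      intro d k
      rw [hs d, app_ge]
    by_cases hz : z' [] = true
    · -- the leaf is true
      have hb := bad_block hF (δ := m) (ω := ω) (σ := ρ ++ [true]) ⟨by
          intro i hi
          rcases Nat.lt_or_ge i ρ.length with h | h
          · rw [List.getElem_append_left h]
            have := hpre 0 i h
            simpa using this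
          · have hi2 : i = ρ.length := by simp at hi; omega
            subst hi2
            have := hpost 0 0
            simpa [str, hz, bitSym] using this, by
          have := hpost 0 1
          simpa [str, hz] using this⟩ (by
          have := hpost 1 1
          simpa [str, hz] using this) κ
      rw [hb]
      simpa [Ev] using hz
    · -- the leaf is false
      have hcode : HasCode (inp T z) m ω (ρ ++ [false]) := ⟨by
          intro i hi
          rcases Nat.lt_or_ge i ρ.length with h | h
          · rw [List.getElem_append_left h]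
            have := hpre 0 i h
            simpa using this
          · have hi2 : i = ρ.length := by simp at hi; omega
            subst hi2
            have := hpost 0 0
            simpa [str, hz, bitSym] using this, by
          have := hpost 0 1
          simpa [str, hz] using this⟩
      have hext : Extends (inp T z) (m + 1) ω (ρ ++ [false]) := ⟨by
          intro i hi
          rcases Nat.lt_or_ge i ρ.length with h | h
          · rw [List.getElem_append_left h]
            have := hpre 1 i h
            simpa using this
          · have hi2 : i = ρ.length := by simp at hi; omega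
            subst hi2
            have := hpost 1 0
            simpa [str, hz, bitSym] using this, by
          have := hpost 1 1
          simp only [str, hz] at this
          push_cast at this ⊢
          simp only [List.length_append, List.length_singleton]
          push_cast
          rw [this]
          decide⟩
      have hval : ρ ++ [false] ∈ Val T := by
        rw [hctx.val, Val]
        rfl
      have hlive := live_block hI hF hK1 hcode hext hval κ
      have hb := bad_block hF (δ := m + 1) (ω := ω) (σ := ρ ++ [false, true]) ⟨by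
          intro i hi
          rcases Nat.lt_or_ge i ρ.length with h | h
          · rw [List.getElem_append_left h]
            have := hpre 1 i h
            simpa using this
          · rcases Nat.lt_or_ge i (ρ.length + 1) with h3 | h3
            · have hi2 : i = ρ.length := by omega
              subst hi2
              have := hpost 1 0
              simpa [str, hz, bitSym] using this
            · have hi2 : i = ρ.length + 1 := by simp at hi; omega
              subst hi2
              have := hpost 1 1
              simpa [str, hz, bitSym] using this, by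
          have := hpost 1 2
          simpa [str, hz, add_assoc] using this⟩ (by
          have := hpost 2 2
          simpa [str, hz, add_assoc] using this) κ
      have hR0 : (F 0 κ (m : ℤ) ω).R ≠ true := by
        intro h
        have := hF.l8 _ _ _ _ hlive h
        rw [hb] at this
        exact Bool.noConfusion this
      constructor
      · intro h; exact absurd h hR0
      · intro h
        rw [Ev] at h
        exact absurd h hz
  | node f ih =>
    intro z' m ρ D hctx
    -- all points with `ω ∈ D` are live
    have hlive : ∀ ω ∈ D, (F 0 κ (m : ℤ) ω).live := by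
      intro ω hω
      have hs := hctx.str ω hω
      have hpre : ∀ (d : ℕ) (i : ℕ) (h : i < ρ.length),
          inp T z (i + 1) ((m + d : ℕ) : ℤ) ω = bitSym ρ[i] := by
        intro d i h
        rw [hs d i, app_lt _ _ _ h]
      have hpost : ∀ (d k : ℕ), inp T z ((ρ.length + k : ℕ) + 1) ((m + d : ℕ) : ℤ) ω =
          str (Tr.node f) d z' (fun i j => bits ω (m + i) j) k := by
        intro d k
        rw [hs d, app_ge]
      refine live_block hI hF hK1 (σ := ρ) ⟨?_, ?_⟩ ⟨?_, ?_⟩ ?_ κ
      · intro i hi
        simpa using hpre 0 i hi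
      · simpa [str_node_zero] using hpost 0 0
      · intro i hi
        simpa using hpre 1 i hi
      · have h1 := hpost 1 0
        have h2 := str_node_first f 0 z' (fun i j => bits ω (m + i) j)
        rw [zero_add] at h2
        rw [← h1] at h2
        simpa using h2
      · have := hctx.val []
        rw [List.append_nil] at this
        rw [this, Val]
        exact Or.inl rfl
    -- `R` is constant on the `c`-lines
    have hstep : ∀ ω ∈ D, (F 0 κ (m : ℤ) (addAt m 1 ω)).R = (F 0 κ (m : ℤ) ω).R := by
      intro ω hω
      exact ((hF.l9 _ _ _ _ (hlive ω hω) (hlive _ (hctx.inv m le_rfl 1 ω hω))).1).symm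
    have hline : ∀ ω ∈ D, ∀ n : ℤ, (F 0 κ (m : ℤ) (addAt m n ω)).R = (F 0 κ (m : ℤ) ω).R := by
      intro ω hω n
      induction n using Int.induction_on with
      | zero => rw [addAt_eq, sh_zero, add_zero]
      | succ n ihn =>
        rw [← ihn, ← hstep _ (hctx.inv m le_rfl n ω hω)]
        rw [addAt_eq, addAt_eq, addAt_eq, add_assoc, ← sh_add]
      | pred n ihn =>
        rw [← ihn, ← hstep _ (hctx.inv m le_rfl _ ω hω)]
        rw [addAt_eq, addAt_eq, addAt_eq, add_assoc, ← sh_add, sub_add_cancel]
    -- the induction hypothesis for all points of the `c`-line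
    have hgen : ∀ᶠ ω in residual Om, ∀ (n : ℤ) (j : ℕ), ω + sh pp m n ∈ D ∩ Choice m j →
        ((F 0 κ ((m + 1 : ℕ) : ℤ) (ω + sh pp m n)).R = true ↔ Ev (f j) (subz z' j)) := by
      rw [eventually_countable_forall]
      intro n
      rw [eventually_countable_forall]
      intro j
      exact residual_translate (sh pp m n)
        (ih j (subz z' j) (m + 1) _ _ (ctx_child hctx j))
    have hzero : ∀ᶠ ω in residual Om, ∀ n : ℤ, ∃ k : ℕ, ω (m : ℤ) k + (n : ZMod (pp k)) = 0 := by
      rw [eventually_countable_forall]
      intro n
      exact generic_zero m n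
    have hchoice : ∀ (ω : Om) (n : ℤ) (j : ℕ), ω + sh pp m n ∈ Choice m j ↔
        (∀ i < j, ω (m : ℤ) i + (n : ZMod (pp i)) ≠ 0) ∧ ω (m : ℤ) j + (n : ZMod (pp j)) = 0 := by
      intro ω n j
      simp only [Choice, Set.mem_ofPred_eq, Pi.add_apply, sh_same]
    by_cases hex : ∃ j, Ev (f j) (subz z' j)
    · -- some child is true
      obtain ⟨j, hj⟩ := hex
      filter_upwards [hgen] with ω hω hD
      have hEv : ¬ Ev (Tr.node f) z' := by
        rw [Ev]
        intro h
        exact h j hj
      obtain ⟨n, hn⟩ := line_hits one_lt_pp coprime_pp ω m j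
      have hmem : ω + sh pp m n ∈ D ∩ Choice m j := by
        refine ⟨?_, (hchoice ω n j).2 hn⟩
        rw [← addAt_eq]
        exact hctx.inv m le_rfl n ω hD
      have h1 := (hω n j hmem).2 hj
      have h2 : (F 0 κ (m : ℤ) (ω + sh pp m n)).R ≠ true := by
        intro h
        have := hF.l8 _ _ _ _ (hlive _ hmem.1) h
        push_cast at h1
        rw [h1] at this
        exact Bool.noConfusion this
      rw [← addAt_eq, hline ω hD n] at h2
      constructor
      · intro h; exact absurd h h2
      · intro h; exact absurd h hEv
    · -- all children are false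
      have hall : ∀ j, ¬ Ev (f j) (subz z' j) := fun j hj => hex ⟨j, hj⟩
      have hEv : Ev (Tr.node f) z' := by
        rw [Ev]
        exact hall
      have hfalse : ∀ᶠ ω in residual Om, ω ∈ D → ∀ n : ℤ,
          (F 0 κ ((m : ℤ) + 1) (ω + sh pp m n)).R = false := by
        filter_upwards [hgen, hzero] with ω hω hω0 hD n
        have hx : ∃ k : ℕ, decide (ω (m : ℤ) k + (n : ZMod (pp k)) = 0) = true := by
          obtain ⟨k, hk⟩ := hω0 n
          exact ⟨k, by simpa using hk⟩
        obtain ⟨j, hj1, hj2⟩ := exists_first hx
        have hmem : ω + sh pp m n ∈ D ∩ Choice m j := by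
          refine ⟨?_, (hchoice ω n j).2 ⟨fun i hi => ?_, ?_⟩⟩
          · rw [← addAt_eq]
            exact hctx.inv m le_rfl n ω hD
          · simpa using hj1 i hi
          · simpa using hj2
        have h1 := hω n j hmem
        push_cast at h1
        rw [← Bool.not_eq_true]
        intro h
        exact hall j (h1.1 h)
      have hodo := odometer one_lt_pp odd_pp m (D ∩ {ω | (F 0 κ (m : ℤ) ω).R = true}ᶜ)
        {ω | (F 0 κ (m : ℤ) ω).p = true} (hctx.meas.inter (hR m).compl) (hp m) (by
          filter_upwards [hfalse] with ω hω hE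
          have hRf : (F 0 κ (m : ℤ) ω).R = false := by
            rw [← Bool.not_eq_true]
            exact hE.2
          have hD2 : addAt m 1 ω ∈ D := hctx.inv m le_rfl 1 ω hE.1
          have h9 := hF.l9 _ _ _ _ (hlive ω hE.1) (hlive _ hD2)
          have hw0 := hω hE.1 0
          have hw1 := hω hE.1 1
          rw [sh_zero, add_zero] at hw0
          rw [← addAt_eq] at hw1 ⊢
          refine ⟨⟨hD2, ?_⟩, ?_⟩
          · intro h
            have h' : (F 0 κ (m : ℤ) (addAt m 1 ω)).R = true := h
            rw [← h9.1, hRf] at h'
            exact Bool.noConfusion h'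
          · have h10 := h9.2 hRf hw0 hw1
            change (F 0 κ (m : ℤ) ω).p = true ↔ ¬ (F 0 κ (m : ℤ) (addAt m 1 ω)).p = true
            revert h10
            cases (F 0 κ (m : ℤ) ω).p <;> cases (F 0 κ (m : ℤ) (addAt m 1 ω)).p <;> simp)
      filter_upwards [hodo] with ω hω hD
      constructor
      · intro _; exact hEv
      · intro _
        by_contra h
        exact hω ⟨hD, h⟩

/-- **FORCED** -/
theorem forced (hK1 : StmtK1) : StmtForced := by
  intro T f hio hrules hR hp z
  have hio' : ∀ ξ κ δ ω, (f ((ξ, κ, δ, ω), z)).ι = inp T z ξ δ ω := by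
    intro ξ κ δ ω
    rw [hio, iotaY_eq]
  have hF := rulesI_of_rulesG (inp T z) (inputOK_inp T z) f z hio' hrules
  have hcont : ∀ (δ : ℤ), Continuous (fun ω : Om => (((0, 1, δ, ω), z) : YY (Val T))) := by
    intro δ
    fun_prop
  have hmeas : ∀ (δ : ℤ) (S : Set (YY (Val T))), @MeasurableSet _ (borel _) S →
      BaireMeasurableSet {ω : Om | (((0, 1, δ, ω), z) : YY (Val T)) ∈ S} := by
    intro δ S hS
    borelize Om
    borelize (YY (Val T))
    exact ((hcont δ).measurable hS).baireMeasurableSet
  have := forced_aux hK1 T z _ hF 1 (fun δ => hmeas δ _ hR) (fun δ => hmeas δ _ hp) T z 0 []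
    Set.univ (ctx_root T z)
  filter_upwards [this] with ω hω
  exact hω trivial

end Pool.Agent.LCL89
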