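import Pool.Agent.LCL89.Forced.Str

set_option autoImplicit false

/-!
# Continuity of the input
-/

namespace Pool.Agent.LCL89

open Filter Topology

lemma str_cont (T : Tr) : ∀ (m n : ℕ),
    Continuous (fun q : ZZ × (ℕ → ℕ → Bool) => str T m q.1 q.2 n) := by
  induction T with
  | leaf =>
    intro m n
    have h1 : Continuous (fun q : ZZ × (ℕ → ℕ → Bool) => q.1 []) := by fun_prop
    have h2 : (fun q : ZZ × (ℕ → ℕ → Bool) => str Tr.leaf m q.1 q.2 n) =
        (fun b : Bool => (if b = true then (if n = 0 then 1 else 2)
          else if n = 0 then 0 else if n = 1 ∧ m ≠ 0 then 1 else 2 : ZMod 3)) ∘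
        (fun q : ZZ × (ℕ → ℕ → Bool) => q.1 []) := by
      funext q
      simp [str]
    rw [h2]
    exact continuous_of_discreteTopology.comp h1
  | node f ih =>
    intro m n
    rcases m with _ | m
    · have h2 : (fun q : ZZ × (ℕ → ℕ → Bool) => str (Tr.node f) 0 q.1 q.2 n) = fun _ => 2 := by
        funext q
        rw [str_node_zero]
      rw [h2]
      exact continuous_const
    · rw [continuous_iff_continuousAt]
      intro q
      -- near `q` the bits `B 0 i`, `i ≤ n`, do not change
      have hev : ∀ᶠ q' : ZZ × (ℕ → ℕ → Bool) in 𝓝 q, ∀ i < n + 1, q'.2 0 i = q.2 0 i := by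
        have : ∀ i ∈ Finset.range (n + 1), ∀ᶠ q' : ZZ × (ℕ → ℕ → Bool) in 𝓝 q,
            q'.2 0 i = q.2 0 i := by
          intro i _
          have hc : Continuous (fun q' : ZZ × (ℕ → ℕ → Bool) => q'.2 0 i) := by fun_prop
          exact ((isOpen_discrete {b : Bool | b = q.2 0 i}).preimage hc).mem_nhds rfl
        filter_upwards [(eventually_all_finset _).2 this] with q' hq i hi
        exact hq i (Finset.mem_range.2 hi)
      by_cases hex : ∃ j < n + 1, (∀ i < j, q.2 0 i = false) ∧ q.2 0 j = true
      · obtain ⟨j, hj, h1, h2⟩ := hex
        have heq : (fun q' : ZZ × (ℕ → ℕ → Bool) => str (Tr.node f) (m + 1) q'.1 q'.2 n) =ᶠ[𝓝 q]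
            fun q' => app (List.replicate j false ++ [true])
              (str (f j) m (subz q'.1 j) (fun i => q'.2 (i + 1))) n := by
          filter_upwards [hev] with q' hq'
          exact str_node (fun i hi => by rw [hq' i (by omega), h1 i hi])
            (by rw [hq' j hj, h2]) n
        refine ContinuousAt.congr ?_ heq.symm
        apply Continuous.continuousAt
        have hs : ∀ k, Continuous (fun q' : ZZ × (ℕ → ℕ → Bool) =>
            str (f j) m (subz q'.1 j) (fun i => q'.2 (i + 1)) k) := by
          intro k
          have hc : Continuous (fun q' : ZZ × (ℕ → ℕ → Bool) =>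
              ((subz q'.1 j, fun i => q'.2 (i + 1)) : ZZ × (ℕ → ℕ → Bool))) := by
            unfold subz
            fun_prop
          exact (ih j m k).comp hc
        unfold app
        by_cases hl : n < (List.replicate j false ++ [true]).length
        · simp only [hl, dite_true]
          exact continuous_const
        · simp only [hl, dite_false]
          exact hs _
      · have hno : ∀ i < n + 1, q.2 0 i = false := by
          intro i
          induction i using Nat.strong_induction_on with
          | _ i ihi =>
            intro hi
            rw [← Bool.not_eq_true]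
            intro h
            exact hex ⟨i, hi, fun k hk => ihi k hk (by omega), h⟩
        have heq : (fun q' : ZZ × (ℕ → ℕ → Bool) => str (Tr.node f) (m + 1) q'.1 q'.2 n) =ᶠ[𝓝 q]
            fun _ => 0 := by
          filter_upwards [hev] with q' hq'
          by_cases hex' : ∃ j, q'.2 0 j = true
          · obtain ⟨j, h1, h2⟩ := exists_first hex'
            have hjn : n < j := by
              by_contra hjn
              rw [hq' j (by omega), hno j (by omega)] at h2
              exact Bool.noConfusion h2
            rw [str_node h1 h2, app_lt _ _ _ (by simp; omega),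
              List.getElem_append_left (by simpa using hjn)]
            simp [bitSym]
          · rw [str_node_none hex']
        exact ContinuousAt.congr continuousAt_const heq.symm

/-- the input is continuous -/
theorem iotaCont : StmtIotaCont := by
  intro V T
  rw [continuous_iff_continuousAt]
  intro y
  have hev : ∀ᶠ y' : YY V in 𝓝 y, y'.1.1 = y.1.1 ∧ y'.1.2.2.1 = y.1.2.2.1 := by
    have hc1 : Continuous (fun y' : YY V => y'.1.1) := by fun_prop
    have hc2 : Continuous (fun y' : YY V => y'.1.2.2.1) := by fun_prop
    have h1 := ((isOpen_discrete {b : ℤ | b = y.1.1}).preimage hc1).mem_nhds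
      (show y ∈ _ from rfl)
    have h2 := ((isOpen_discrete {b : ℤ | b = y.1.2.2.1}).preimage hc2).mem_nhds
      (show y ∈ _ from rfl)
    filter_upwards [h1, h2] with y' h3 h4
    exact ⟨h3, h4⟩
  have hbits : Continuous bits := by
    unfold bits
    refine continuous_pi fun i => continuous_pi fun j => ?_
    have hc : Continuous (fun ω : Om => ω (i : ℤ) j) := by fun_prop
    have hd : Continuous (fun x : ZMod (pp j) => decide (x = 0)) := continuous_of_discreteTopology
    exact hd.comp hc
  by_cases h : y.1.1 ≤ 0 ∨ y.1.2.2.1 < 0
  · have heq : iotaY V T =ᶠ[𝓝 y] fun _ => 2 := by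
      filter_upwards [hev] with y' hy'
      rw [iotaY, hy'.1, hy'.2, if_pos h]
    exact ContinuousAt.congr continuousAt_const heq.symm
  · have heq : iotaY V T =ᶠ[𝓝 y] fun y' =>
        str T (y.1.2.2.1).toNat y'.2 (bits y'.1.2.2.2) (y.1.1 - 1).toNat := by
      filter_upwards [hev] with y' hy'
      rw [iotaY, hy'.1, hy'.2, if_neg h]
    refine ContinuousAt.congr ?_ heq.symm
    apply Continuous.continuousAt
    have hc : Continuous (fun y' : YY V => ((y'.2, bits y'.1.2.2.2) : ZZ × (ℕ → ℕ → Bool))) := by
      have h3 : Continuous (fun y' : YY V => y'.1.2.2.2) := by fun_prop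
      exact continuous_snd.prodMk (hbits.comp h3)
    exact (str_cont T _ _).comp hc

end Pool.Agent.LCL89
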