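import Pool.Agent.LCL89.Forced.Claim
import Pool.Agent.LCL89.Hier.Proofs8

set_option autoImplicit false

/-!
# The lower bound on `Y`
-/

namespace Pool.Agent.LCL89

open Filter Topology

/-- **LOWER** -/
theorem lower (hF : StmtForced) (hV : StmtVaught) (hP : StmtPreimage) (hB : StmtSigmaBorel) :
    StmtLower := by
  intro T α f hio hrules hcl
  have hbaire : BaireSpace Om := baire_Om one_lt_pp
  have hsc : SecondCountableTopology Om := inferInstance
  have hmeasU : ∀ U : Set Lab, @MeasurableSet _ (borel _) (f ⁻¹' U) := by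
    intro U
    borelize (YY (Val T))
    exact hB (1 + α) (f ⁻¹' U) (hcl U)
  have hforced := hF T f hio hrules (hmeasU {l | l.R = true}) (hmeasU {l | l.p = true})
  have hc : Continuous (fun q : ZZ × Om => (((0, 1, 0, q.2), q.1) : YY (Val T))) := by
    fun_prop
  have hsig : IsSigma (1 + α) {q : ZZ × Om | (f ((0, 1, 0, q.2), q.1)).R = true} :=
    hP _ hc (1 + α) _ (hcl {l | l.R = true})
  have hv := hV (1 + α) _ hsig
  have heq : {z : ZZ | ¬ IsMeagre {ω : Om | (z, ω) ∈
      {q : ZZ × Om | (f ((0, 1, 0, q.2), q.1)).R = true}}} = {z : ZZ | Ev T z} := by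
    ext z
    change ¬ IsMeagre {ω : Om | (f ((0, 1, 0, ω), z)).R = true} ↔ Ev T z
    constructor
    · intro h
      by_contra hE
      apply h
      change {ω : Om | (f ((0, 1, 0, ω), z)).R = true}ᶜ ∈ residual Om
      filter_upwards [hforced z] with ω hω hR
      exact hE (hω.1 hR)
    · intro hE h
      have h' : ∀ᶠ ω in residual Om, ω ∉ {ω : Om | (f ((0, 1, 0, ω), z)).R = true} := h
      have h2 : ∀ᶠ ω in residual Om, ω ∉ (Set.univ : Set Om) := by
        filter_upwards [hforced z, h'] with ω hω hR
        exact absurd (hω.2 hE) hR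
      exact not_eventually_not_mem_of_open one_lt_pp isOpen_univ ⟨0, trivial⟩ h2
  rw [heq] at hv
  exact hv

end Pool.Agent.LCL89
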