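import Pool.Agent.LCL89.Grp.Defs

set_option autoImplicit false

/-!
# The input on `Y`, forced evaluation, reduction: definitions and statements
-/

namespace Pool.Agent.LCL89

open Classical in
/-- the input string: `str T m z B n` is the `n`-th symbol of the string of depth `m` -/
noncomputable def str : Tr → ℕ → ZZ → (ℕ → ℕ → Bool) → ℕ → ZMod 3
  | Tr.leaf, m, z, _, n =>
      if z [] = true then (if n = 0 then 1 else 2)
      else if n = 0 then 0 else if n = 1 ∧ m ≠ 0 then 1 else 2
  | Tr.node _, 0, _, _, _ => 2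
  | Tr.node f, m + 1, z, B, n =>
      if h : ∃ j, B 0 j = true then
        (if n < Nat.find h then 0 else if n = Nat.find h then 1
          else str (f (Nat.find h)) m (subz z (Nat.find h)) (fun i => B (i + 1)) (n - Nat.find h - 1))
      else 0

/-- the bits coded by `ω` -/
def bits (ω : Om) : ℕ → ℕ → Bool := fun i j => decide (ω (i : ℤ) j = 0)

/-- the input on `Y` -/
noncomputable def iotaY (V : Set (List Bool)) (T : Tr) (y : YY V) : ZMod 3 :=
  if y.1.1 ≤ 0 ∨ y.1.2.2.1 < 0 then 2
  else str T (y.1.2.2.1).toNat y.2 (bits y.1.2.2.2) (y.1.1 - 1).toNat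

/-- the input is continuous -/
def StmtIotaCont : Prop := ∀ (V : Set (List Bool)) (T : Tr), Continuous (iotaY V T)

/-- FORCED: the label `R` evaluates the tree -/
def StmtForced : Prop :=
  ∀ (T : Tr) (f : YY (Val T) → Lab), (∀ y, (f y).ι = iotaY (Val T) T y) →
    (∀ y, RulesG (eG (Val T)) (pat f y)) →
    @MeasurableSet _ (borel _) {y | (f y).R = true} →
    @MeasurableSet _ (borel _) {y | (f y).p = true} →
    ∀ z : ZZ, ∀ᶠ ω in residual Om, ((f ((0, 1, 0, ω), z)).R = true ↔ Ev T z)

/-- LOWER: the lower bound for the problem on `Y` with input `iotaY` -/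
def StmtLower : Prop :=
  ∀ (T : Tr) (α : Ordinal.{0}) (f : YY (Val T) → Lab), (∀ y, (f y).ι = iotaY (Val T) T y) →
    (∀ y, RulesG (eG (Val T)) (pat f y)) → BaireClass α f → IsSigma (1 + α) {z : ZZ | Ev T z}

/-- RED: reduction of the problem on `Γ`-spaces to the problem on `Y` with input -/
def StmtReduction : Prop :=
  ∀ (V : Set (List Bool)) (α : Ordinal.{0}), theLCL (eG V).lift ∈ BAIRE α (Gam V) →
    ∀ ι : YY V → ZMod 3, Continuous ι →
      ∃ f : YY V → Lab, BaireClass α f ∧ (∀ y, (f y).ι = ι y) ∧ ∀ y, RulesG (eG V) (pat f y)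

end Pool.Agent.LCL89
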