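import Pool.Agent.LCL89.Forced.Stmt
import Pool.Agent.LCL89.Forced.Block

set_option autoImplicit false

/-!
# The input strings
-/

namespace Pool.Agent.LCL89

open Filter Topology

/-- prefixing a list of bits to a string -/
def app (ρ : List Bool) (s : ℕ → ZMod 3) (n : ℕ) : ZMod 3 :=
  if h : n < ρ.length then bitSym ρ[n] else s (n - ρ.length)

lemma app_lt (ρ : List Bool) (s : ℕ → ZMod 3) (n : ℕ) (h : n < ρ.length) :
    app ρ s n = bitSym ρ[n] := by simp [app, h]

lemma app_ge (ρ : List Bool) (s : ℕ → ZMod 3) (n : ℕ) :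
    app ρ s (ρ.length + n) = s n := by simp [app]

lemma app_nil (s : ℕ → ZMod 3) (n : ℕ) : app [] s n = s n := by simp [app]

lemma app_append (ρ τ : List Bool) (s : ℕ → ZMod 3) (n : ℕ) :
    app (ρ ++ τ) s n = app ρ (app τ s) n := by
  rcases Nat.lt_or_ge n ρ.length with h | h
  · rw [app_lt _ _ _ h, app_lt _ _ _ (by simp; omega)]
    rw [List.getElem_append_left h]
  · obtain ⟨k, rfl⟩ := Nat.exists_eq_add_of_le h
    rw [app_ge]
    rcases Nat.lt_or_ge k τ.length with h2 | h2
    · rw [app_lt _ _ _ h2, app_lt _ _ _ (by simp; omega)]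
      congr 1
      rw [List.getElem_append_right (by omega)]
      congr 1
      omega
    · obtain ⟨l, rfl⟩ := Nat.exists_eq_add_of_le h2
      rw [app_ge]
      have := app_ge (ρ ++ τ) s l
      rw [List.length_append] at this
      rw [← this]
      congr 1
      omega

lemma str_node {f : ℕ → Tr} {m : ℕ} {z : ZZ} {B : ℕ → ℕ → Bool} {j : ℕ}
    (h1 : ∀ i < j, B 0 i = false) (h2 : B 0 j = true) (n : ℕ) :
    str (Tr.node f) (m + 1) z B n =
      app (List.replicate j false ++ [true]) (str (f j) m (subz z j) (fun i => B (i + 1))) n := by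
  classical
  have hex : ∃ j, B 0 j = true := ⟨j, h2⟩
  have hfind : Nat.find hex = j := by
    rw [Nat.find_eq_iff]
    exact ⟨h2, fun i hi => by rw [h1 i hi]; simp⟩
  rw [str, dif_pos hex]
  have hlen : (List.replicate j false ++ [true]).length = j + 1 := by simp
  have hfd : ∀ (inst : DecidablePred fun j => B 0 j = true), @Nat.find _ inst hex = j := by
    intro inst
    rw [← hfind]
    congr
  rw [hfd]
  rcases Nat.lt_trichotomy n j with h | h | h
  · rw [if_pos h, app_lt _ _ _ (by rw [hlen]; omega), List.getElem_append_left (by simpa using h)]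
    simp [bitSym]
  · subst h
    rw [if_neg (lt_irrefl _), if_pos rfl, app_lt _ _ _ (by rw [hlen]; omega),
      List.getElem_append_right (by simp)]
    simp [bitSym]
  · obtain ⟨k, rfl⟩ := Nat.exists_eq_add_of_lt h
    rw [if_neg (by omega), if_neg (by omega)]
    have := app_ge (List.replicate j false ++ [true])
      (str (f j) m (subz z j) (fun i => B (i + 1))) k
    rw [hlen, show j + 1 + k = j + k + 1 by ring] at this
    rw [this]
    congr 1
    omega

lemma str_node_zero (f : ℕ → Tr) (z : ZZ) (B : ℕ → ℕ → Bool) (n : ℕ) :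
    str (Tr.node f) 0 z B n = 2 := by rw [str]

lemma str_node_none {f : ℕ → Tr} {m : ℕ} {z : ZZ} {B : ℕ → ℕ → Bool}
    (h : ¬ ∃ j, B 0 j = true) (n : ℕ) : str (Tr.node f) (m + 1) z B n = 0 := by
  rw [str, dif_neg h]

lemma exists_first {P : ℕ → Bool} (h : ∃ j, P j = true) :
    ∃ j, (∀ i < j, P i = false) ∧ P j = true := by
  classical
  refine ⟨Nat.find h, fun i hi => ?_, Nat.find_spec h⟩
  have := Nat.find_min h hi
  simpa using this

lemma str_node_first (f : ℕ → Tr) (m : ℕ) (z : ZZ) (B : ℕ → ℕ → Bool) :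
    str (Tr.node f) (m + 1) z B 0 ≠ 2 := by
  by_cases h : ∃ j, B 0 j = true
  · obtain ⟨j, h1, h2⟩ := exists_first h
    rw [str_node h1 h2, app_lt _ _ _ (by simp)]
    exact bitSym_ne _
  · rw [str_node_none h]
    decide

lemma str_congr (T : Tr) : ∀ (m : ℕ) (z : ZZ) (B B' : ℕ → ℕ → Bool) (n : ℕ),
    (∀ i < m, ∀ j, B i j = B' i j) → str T m z B n = str T m z B' n := by
  induction T with
  | leaf => intro m z B B' n _; simp [str]
  | node f ih =>
    intro m z B B' n h
    rcases m with _ | m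
    · rw [str_node_zero, str_node_zero]
    · have h0 : ∀ j, B 0 j = B' 0 j := h 0 (by omega)
      by_cases hex : ∃ j, B 0 j = true
      · obtain ⟨j, h1, h2⟩ := exists_first hex
        rw [str_node h1 h2, str_node (fun i hi => by rw [← h0, h1 i hi]) (by rw [← h0, h2])]
        have : ∀ k, str (f j) m (subz z j) (fun i => B (i + 1)) k =
            str (f j) m (subz z j) (fun i => B' (i + 1)) k := fun k =>
          ih j m (subz z j) _ _ k (fun i hi j => h (i + 1) (by omega) j)
        rw [show str (f j) m (subz z j) (fun i => B (i + 1)) =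
          str (f j) m (subz z j) (fun i => B' (i + 1)) from funext this]
      · have hex' : ¬ ∃ j, B' 0 j = true := fun ⟨j, hj⟩ => hex ⟨j, by rw [h0, hj]⟩
        rw [str_node_none hex, str_node_none hex']

/-- the input for fixed `z` -/
noncomputable def inp (T : Tr) (z : ZZ) (ξ δ : ℤ) (ω : Om) : ZMod 3 :=
  if ξ ≤ 0 ∨ δ < 0 then 2 else str T δ.toNat z (bits ω) (ξ - 1).toNat

lemma iotaY_eq (V : Set (List Bool)) (T : Tr) (ξ : ℤ) (κ : KP V) (δ : ℤ) (ω : Om) (z : ZZ) :
    iotaY V T ((ξ, κ, δ, ω), z) = inp T z ξ δ ω := rfl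

lemma inp_nat (T : Tr) (z : ZZ) (n m : ℕ) (ω : Om) :
    inp T z (n + 1) m ω = str T m z (bits ω) n := by
  rw [inp, if_neg (by omega)]
  congr 1
  omega

lemma inputOK_inp (T : Tr) (z : ZZ) : InputOK (inp T z) := by
  constructor
  · intro ξ δ ω h
    rw [inp, if_pos (Or.inl h)]
  · intro ξ δ n ω
    rw [inp, inp]
    by_cases h : ξ ≤ 0 ∨ δ < 0
    · rw [if_pos h, if_pos h]
    · rw [if_neg h, if_neg h]
      apply str_congr
      intro i hi j
      rw [bits, bits, addAt, if_neg (by omega)]

lemma addAt_eq (m n : ℤ) (ω : Om) : addAt m n ω = ω + sh pp m n := by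
  funext i k
  rw [Pi.add_apply, Pi.add_apply, addAt]
  by_cases h : i = m
  · subst h
    rw [if_pos rfl, sh_same]
  · rw [if_neg h, sh_ne m n i h, Pi.zero_apply, add_zero]

lemma one_lt_pp (k : ℕ) : 1 < pp k := by
  have := Nat.three_le_fermatNumber k
  rw [pp]
  omega

lemma odd_pp (k : ℕ) : Odd (pp k) := Nat.odd_fermatNumber k

lemma coprime_pp : Pairwise (Function.onFun Nat.Coprime pp) := by
  intro i j hij
  exact Nat.coprime_fermatNumber_fermatNumber hij

end Pool.Agent.LCL89
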